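import Pool.Agent.Helper43.BT.Eval
import Pool.Agent.Helper96.BT.Defs

/-!
# BT: M2, M3, V1: the letters as functions of the changes in the holes
-/

set_option autoImplicit false
set_option linter.unusedSectionVars false

namespace Pool.Agent.Helper43.BT

open Finset Pool.Agent.Helper19.NF Pool.Agent.Helper74.NW Pool.Agent.Helper96.BT
open Pool.Agent.Helper74.NE (fine fine_apply)
open Pool.Agent.Helper99.NQ (pos)

section net

variable {n D m S : ℕ} [NeZero m] {F B W G Z : Type} [Field F] [Fintype F] [AddCommGroup B] [AddCommGroup W]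
  [Module F W] [Fintype W] [Fintype B] (enc : W →+ (Fin D × Fin m → B))

open Classical in
/-- The content of the change of the block `p`. -/
theorem cont_flip (g : Fin D → Equiv.Perm (Fin n)) (h1 : Fin n → Fin D × Fin m) (A : Finset (Fin n)) (b : Fin n → W)
    (p : Fin n × Fin m) : cont (flip (F := F) g h1 A b p) = ∑ u ∈ A, if pos g h1 u = p then b u else 0 := by
  unfold cont Pool.Agent.Helper96.BT.flip
  have h : ∀ l : W, (∑ u ∈ A, if pos g h1 u = p ∧ b u = l then (1 : F) else 0) • l =
      ∑ u ∈ A, if b u = l then (if pos g h1 u = p then b u else 0) else 0 := by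
    intro l
    rw [sum_smul]
    refine sum_congr rfl fun u _ => ?_
    by_cases h2 : b u = l
    · by_cases h3 : pos g h1 u = p
      · rw [if_pos ⟨h3, h2⟩, if_pos h2, if_pos h3, one_smul, h2]
      · rw [if_neg fun h => h3 h.1, if_pos h2, if_neg h3, zero_smul]
    · rw [if_neg fun h => h2 h.2, if_neg h2, zero_smul]
  rw [sum_congr rfl fun l _ => h l, sum_comm]
  refine sum_congr rfl fun u _ => ?_
  rw [sum_ite_eq, if_pos (mem_univ _)]

open Classical in
/-- M2: the change of a letter by the changes in the holes, and that it is additive in `b`. -/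
theorem lam_flip (g : Fin D → Equiv.Perm (Fin n)) (h1 : Fin n → Fin D × Fin m) (A : Finset (Fin n)) (b : Fin n → W)
    (v : Fin n × Fin m) : lam enc g (flip (F := F) g h1 A b) v =
      ∑ c, ∑ u ∈ A, if pos g h1 u = fine g c v then enc (b u) c else 0 := by
  unfold lam
  refine sum_congr rfl fun c _ => ?_
  rw [cont_flip, map_sum, Finset.sum_apply]
  refine sum_congr rfl fun u _ => ?_
  split_ifs
  · rfl
  · rw [map_zero]
    rfl

/-- M3: any `4` letters of each node of `A` can be moved arbitrarily by changes in the holes. -/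
theorem four (hE : Mds enc (4 * D)) (g : Fin D → Equiv.Perm (Fin n)) (h1 : Fin n → Fin D × Fin m)
    (A : Finset (Fin n)) (q : Fin n → Finset (Fin m)) (hq : ∀ u, (q u).card ≤ 4) (z : Fin n → Fin m → B) :
    ∃ b : Fin n → W, ∀ u ∈ A, ∀ t ∈ q u, lam enc g (flip (F := F) g h1 A b) (u, t) = z u t := by
  classical
  -- the coordinates of the hole of `u'` which matter
  have hP : ∀ u' : Fin n, (univ.filter (fun c : Fin D × Fin m =>
      (pos g h1 u').2 - c.2 ∈ q ((g c.1).symm (pos g h1 u').1))).card ≤ 4 * D := by
    intro u'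
    have h2 : (univ.filter (fun c : Fin D × Fin m =>
        (pos g h1 u').2 - c.2 ∈ q ((g c.1).symm (pos g h1 u').1))) ⊆
        (univ : Finset (Fin D)).biUnion (fun s => ((q ((g s).symm (pos g h1 u').1)).image
          (fun t => (s, (pos g h1 u').2 - t)))) := by
      intro c hc
      rw [mem_filter] at hc
      rw [mem_biUnion]
      refine ⟨c.1, mem_univ _, mem_image.2 ⟨(pos g h1 u').2 - c.2, hc.2, ?_⟩⟩
      rw [sub_sub_cancel]
    refine (card_le_card h2).trans (card_biUnion_le.trans ?_)
    calc ∑ s : Fin D, ((q ((g s).symm (pos g h1 u').1)).image (fun t => (s, (pos g h1 u').2 - t))).card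
        ≤ ∑ s : Fin D, 4 := sum_le_sum fun s _ => card_image_le.trans (hq _)
      _ = 4 * D := by simp [mul_comm]
  have hex : ∀ u' : Fin n, ∃ x : W, ∀ c, (pos g h1 u').2 - c.2 ∈ q ((g c.1).symm (pos g h1 u').1) →
      enc x c = if c.1 = (h1 u').1 then z u' ((pos g h1 u').2 - c.2) else 0 := by
    intro u'
    obtain ⟨x, hx⟩ := hE (univ.filter (fun c : Fin D × Fin m =>
      (pos g h1 u').2 - c.2 ∈ q ((g c.1).symm (pos g h1 u').1))) (hP u')
      (fun c => if c.1 = (h1 u').1 then z u' ((pos g h1 u').2 - c.2) else 0)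
    exact ⟨x, fun c hc => hx c (mem_filter.2 ⟨mem_univ _, hc⟩)⟩
  choose l hl using hex
  refine ⟨l, fun u hu t ht => ?_⟩
  have key : ∀ c : Fin D × Fin m, ∀ u' ∈ A, (if pos g h1 u' = fine g c (u, t) then enc (l u') c else 0) =
      if u' = u ∧ c = ((h1 u).1, (h1 u).2 - t) then z u t else 0 := by
    intro c u' _
    by_cases h2 : pos g h1 u' = fine g c (u, t)
    · rw [if_pos h2]
      have e1 : (pos g h1 u').1 = g c.1 u := by rw [h2, fine_apply]
      have e2 : (pos g h1 u').2 = t + c.2 := by rw [h2, fine_apply]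
      have e3 : (pos g h1 u').2 - c.2 = t := by rw [e2, add_sub_cancel_right]
      have e4 : (g c.1).symm (pos g h1 u').1 = u := by rw [e1, Equiv.symm_apply_apply]
      rw [hl u' c (by rw [e3, e4]; exact ht), e3]
      by_cases h3 : c.1 = (h1 u').1
      · rw [if_pos h3]
        have h4 : u' = u := by
          have h5 : g (h1 u').1 u' = g c.1 u := e1
          rw [h3] at h5
          exact (g (h1 u').1).injective h5
        have h6 : c = ((h1 u).1, (h1 u).2 - t) := by
          refine Prod.ext (by rw [h3, h4]) ?_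
          have h7 : (h1 u').2 = t + c.2 := e2
          rw [h4] at h7
          rw [h7]
          simp
        rw [if_pos ⟨h4, h6⟩, h4]
      · rw [if_neg h3, if_neg]
        rintro ⟨h4, h5⟩
        exact h3 (by rw [h5, h4])
    · rw [if_neg h2, if_neg]
      rintro ⟨h3, h4⟩
      refine h2 ?_
      rw [h3, h4, fine_apply]
      unfold pos
      simp
  rw [lam_flip]
  rw [sum_congr rfl fun c _ => sum_congr rfl fun u' hu' => key c u' hu']
  rw [sum_comm, sum_eq_single_of_mem u hu fun u' _ hne => ?_]
  · rw [sum_eq_single ((h1 u).1, (h1 u).2 - t)]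
    · rw [if_pos ⟨rfl, rfl⟩]
    · intro c _ hc
      rw [if_neg fun h => hc h.2]
    · intro h
      exact absurd (mem_univ _) h
  · exact sum_eq_zero fun c _ => if_neg fun h => hne h.1

end net

/-- V1: the values of polynomials of degree less than `j` at the points `ω c` (Lagrange interpolation). -/
noncomputable def evalCode {K : Type} [Field K] {D m j : ℕ} (ω : Fin D × Fin m → K) :
    (Fin j → K) →+ (Fin D × Fin m → K) where
  toFun w := fun c => ∑ i, w i * ω c ^ i.val
  map_zero' := by
    funext c
    simp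
  map_add' w w' := by
    funext c
    simp [add_mul, Finset.sum_add_distrib]

theorem mds_evalCode {K : Type} [Field K] {D m j : ℕ} (ω : Fin D × Fin m → K) (hω : Function.Injective ω) :
    Mds (evalCode (j := j) ω) j := by
  intro A hA y
  obtain ⟨x, hx⟩ := exists_ev_eq hω A hA y
  exact ⟨x, fun c hc => hx c hc⟩

end Pool.Agent.Helper43.BT
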