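import Mathlib

/-!
# A random set of windows misses many rarely read bits

`N z` is the set of the windows which read the bit `z`.
-/

namespace Pool.Agent.Helper43.BT

open Finset

variable {C : Type} {J w D : ℕ}

/-- The subsets disjoint from a given set. -/
theorem card_disjoint (s : Finset (Fin J)) :
    ((univ : Finset (Finset (Fin J))).filter (fun A => Disjoint s A)).card = 2 ^ (J - s.card) := by
  classical
  have h1 : (univ : Finset (Finset (Fin J))).filter (fun A => Disjoint s A) = sᶜ.powerset := by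
    ext A
    rw [mem_filter, mem_powerset]
    constructor
    · rintro ⟨-, h⟩ x hx
      rw [mem_compl]
      exact fun hs => (disjoint_left.1 h hs) hx
    · intro h
      refine ⟨mem_univ _, disjoint_left.2 fun x hs hx => ?_⟩
      exact (mem_compl.1 (h hx)) hs
  rw [h1, card_powerset, card_compl, Fintype.card_fin]

theorem sum_disjoint (s : Finset (Fin J)) :
    (∑ A : Finset (Fin J), if Disjoint s A then (1 : ℝ) else 0) = 2 ^ J / 2 ^ s.card := by
  classical
  have h1 : s.card ≤ J := by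
    have := card_le_univ s
    rwa [Fintype.card_fin] at this
  rw [← sum_filter, sum_const, card_disjoint, nsmul_eq_mul, mul_one]
  push_cast
  rw [pow_sub₀ _ two_ne_zero h1, div_eq_mul_inv]

/-- At most `w` windows read `z ∈ X`, a window reads at most `D` elements of `X`: few sets `A` of windows are such that
less than `|X| / 2 ^ (w + 1)` elements of `X` are not read in `A`. -/
theorem color (X : Finset C) (N : C → Finset (Fin J)) (hN : ∀ z ∈ X, (N z).card ≤ w)
    (hD : ∀ j, (X.filter (fun z => j ∈ N z)).card ≤ D) :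
    (((univ : Finset (Finset (Fin J))).filter
      (fun A => 2 * 2 ^ w * (X.filter (fun z => Disjoint (N z) A)).card < X.card)).card : ℝ) * (X.card : ℝ) ^ 2 ≤
      4 * 2 ^ w * J * D ^ 2 * 2 ^ J := by
  classical
  set Z : Finset (Fin J) → ℝ := fun A => ∑ z ∈ X, (2 : ℝ) ^ (N z).card * (if Disjoint (N z) A then 1 else 0) with hZ
  have e1 : ∑ A, Z A = 2 ^ J * X.card := by
    rw [hZ]
    simp only
    rw [sum_comm]
    rw [sum_congr rfl fun z _ => show ∑ A : Finset (Fin J), (2 : ℝ) ^ (N z).card * (if Disjoint (N z) A then 1 else 0) =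
      2 ^ J by rw [← mul_sum, sum_disjoint]; field_simp]
    rw [sum_const, nsmul_eq_mul, mul_comm]
  have e2 : ∑ A, Z A ^ 2 = 2 ^ J * ∑ z ∈ X, ∑ z' ∈ X, (2 : ℝ) ^ (N z ∩ N z').card := by
    have h1 : ∀ A, Z A ^ 2 = ∑ z ∈ X, ∑ z' ∈ X, (2 : ℝ) ^ ((N z).card + (N z').card) *
        (if Disjoint (N z ∪ N z') A then 1 else 0) := by
      intro A
      rw [sq, hZ]
      simp only
      rw [sum_mul_sum]
      refine sum_congr rfl fun z _ => sum_congr rfl fun z' _ => ?_
      have h2 : Disjoint (N z ∪ N z') A ↔ Disjoint (N z) A ∧ Disjoint (N z') A := disjoint_union_left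
      by_cases h3 : Disjoint (N z) A
      · by_cases h4 : Disjoint (N z') A
        · rw [if_pos h3, if_pos h4, if_pos (h2.2 ⟨h3, h4⟩), pow_add]
          ring
        · rw [if_neg h4, if_neg fun h => h4 (h2.1 h).2]
          ring
      · rw [if_neg h3, if_neg fun h => h3 (h2.1 h).1]
        ring
    rw [sum_congr rfl fun A _ => h1 A, sum_comm, mul_sum]
    refine sum_congr rfl fun z _ => ?_
    rw [sum_comm, mul_sum]
    refine sum_congr rfl fun z' _ => ?_
    rw [← mul_sum, sum_disjoint]
    have h2 : (N z).card + (N z').card = (N z ∩ N z').card + (N z ∪ N z').card := by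
      rw [add_comm (N z ∩ N z').card]
      exact (card_union_add_card_inter _ _).symm
    rw [h2, pow_add]
    field_simp
  have e3 : ∑ z ∈ X, ∑ z' ∈ X, (2 : ℝ) ^ (N z ∩ N z').card ≤ (X.card : ℝ) ^ 2 + 2 ^ w * (J * D ^ 2) := by
    have h1 : ∀ z ∈ X, ∀ z' ∈ X, (2 : ℝ) ^ (N z ∩ N z').card ≤
        1 + 2 ^ w * ∑ j : Fin J, (if j ∈ N z then 1 else 0) * (if j ∈ N z' then 1 else 0) := by
      intro z hz z' hz'
      have h0 : ∀ j : Fin J, (0 : ℝ) ≤ (if j ∈ N z then 1 else 0) * (if j ∈ N z' then 1 else 0) := by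
        intro j
        split_ifs <;> simp
      rcases (N z ∩ N z').eq_empty_or_nonempty with h2 | ⟨j, hj⟩
      · rw [h2, card_empty, pow_zero]
        have := sum_nonneg (s := univ) fun j (_ : j ∈ (univ : Finset (Fin J))) => h0 j
        have h4 : (0 : ℝ) < 2 ^ w := by positivity
        nlinarith
      · have h3 : (1 : ℝ) ≤ ∑ j : Fin J, (if j ∈ N z then 1 else 0) * (if j ∈ N z' then 1 else 0) := by
          refine le_trans ?_ (single_le_sum (fun j _ => h0 j) (mem_univ j))
          rw [if_pos (mem_inter.1 hj).1, if_pos (mem_inter.1 hj).2, mul_one]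
        have h4 : (2 : ℝ) ^ (N z ∩ N z').card ≤ 2 ^ w :=
          pow_le_pow_right₀ one_le_two ((card_le_card inter_subset_left).trans (hN z hz))
        have h5 : (0 : ℝ) < 2 ^ w := by positivity
        nlinarith
    refine (sum_le_sum fun z hz => sum_le_sum fun z' hz' => h1 z hz z' hz').trans ?_
    have h2 : ∑ z ∈ X, ∑ z' ∈ X, (1 + 2 ^ w * ∑ j : Fin J, (if j ∈ N z then (1 : ℝ) else 0) * (if j ∈ N z' then 1 else 0)) =
        (X.card : ℝ) ^ 2 + 2 ^ w * ∑ j : Fin J, ((X.filter (fun z => j ∈ N z)).card : ℝ) ^ 2 := by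
      simp only [sum_add_distrib, sum_const, nsmul_eq_mul, mul_one, ← mul_sum]
      congr 1
      · ring
      · congr 1
        calc ∑ z ∈ X, ∑ z' ∈ X, ∑ j : Fin J, (if j ∈ N z then (1 : ℝ) else 0) * (if j ∈ N z' then 1 else 0)
            = ∑ z ∈ X, ∑ j : Fin J, ∑ z' ∈ X, (if j ∈ N z then (1 : ℝ) else 0) * (if j ∈ N z' then 1 else 0) :=
              sum_congr rfl fun z _ => sum_comm
          _ = ∑ j : Fin J, ∑ z ∈ X, ∑ z' ∈ X, (if j ∈ N z then (1 : ℝ) else 0) * (if j ∈ N z' then 1 else 0) := sum_comm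
          _ = ∑ j : Fin J, ((X.filter (fun z => j ∈ N z)).card : ℝ) ^ 2 := by
            refine sum_congr rfl fun j _ => ?_
            rw [← sum_mul_sum, ← sum_filter, sum_const, nsmul_eq_mul, mul_one, sq]
    rw [h2]
    have h3 : ∑ j : Fin J, ((X.filter (fun z => j ∈ N z)).card : ℝ) ^ 2 ≤ J * D ^ 2 := by
      calc ∑ j : Fin J, ((X.filter (fun z => j ∈ N z)).card : ℝ) ^ 2 ≤ ∑ _j : Fin J, (D : ℝ) ^ 2 := by
            refine sum_le_sum fun j _ => ?_
            have : ((X.filter (fun z => j ∈ N z)).card : ℝ) ≤ D := by exact_mod_cast hD j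
            exact pow_le_pow_left₀ (Nat.cast_nonneg _) this 2
        _ = J * D ^ 2 := by simp
    have h4 : (0 : ℝ) < 2 ^ w := by positivity
    nlinarith
  -- Chebyshev
  have e4 : ∑ A, (Z A - X.card) ^ 2 ≤ 2 ^ J * (2 ^ w * (J * D ^ 2)) := by
    have h1 : ∑ A, (Z A - X.card) ^ 2 = ∑ A, Z A ^ 2 - 2 * X.card * ∑ A, Z A + 2 ^ J * (X.card : ℝ) ^ 2 := by
      have h2 : ∀ A, (Z A - X.card) ^ 2 = Z A ^ 2 - 2 * X.card * Z A + (X.card : ℝ) ^ 2 := fun A => by ring
      rw [sum_congr rfl fun A _ => h2 A, sum_add_distrib, sum_sub_distrib, ← mul_sum, sum_const, nsmul_eq_mul]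
      congr 2
      rw [card_univ, Fintype.card_finset, Fintype.card_fin]
      push_cast
      rfl
    rw [h1, e1, e2]
    have h3 : (0 : ℝ) < 2 ^ J := by positivity
    nlinarith
  have e5 : ∀ A ∈ (univ : Finset (Finset (Fin J))).filter
      (fun A => 2 * 2 ^ w * (X.filter (fun z => Disjoint (N z) A)).card < X.card),
      (X.card : ℝ) ^ 2 / 4 ≤ (Z A - X.card) ^ 2 := by
    intro A hA
    have h1 : (2 * 2 ^ w * ((X.filter (fun z => Disjoint (N z) A)).card : ℝ)) < X.card := by
      exact_mod_cast (mem_filter.1 hA).2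
    have h2 : Z A ≤ 2 ^ w * (X.filter (fun z => Disjoint (N z) A)).card := by
      rw [hZ]
      simp only
      calc ∑ z ∈ X, (2 : ℝ) ^ (N z).card * (if Disjoint (N z) A then 1 else 0)
          ≤ ∑ z ∈ X, (2 : ℝ) ^ w * (if Disjoint (N z) A then 1 else 0) := by
            refine sum_le_sum fun z hz => mul_le_mul_of_nonneg_right ?_ (by split_ifs <;> simp)
            exact pow_le_pow_right₀ one_le_two (hN z hz)
        _ = 2 ^ w * (X.filter (fun z => Disjoint (N z) A)).card := by
            rw [← mul_sum, ← sum_filter, sum_const, nsmul_eq_mul, mul_one]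
    have h3 : 0 ≤ Z A := by
      rw [hZ]
      exact sum_nonneg fun z _ => by split_ifs <;> positivity
    nlinarith
  have e6 := sum_le_sum e5
  rw [sum_const, nsmul_eq_mul] at e6
  have e7 : ∑ A ∈ (univ : Finset (Finset (Fin J))).filter
      (fun A => 2 * 2 ^ w * (X.filter (fun z => Disjoint (N z) A)).card < X.card), (Z A - X.card) ^ 2 ≤
      ∑ A, (Z A - X.card) ^ 2 := sum_le_sum_of_subset_of_nonneg (filter_subset _ _) fun _ _ _ => sq_nonneg _
  have e8 := e6.trans (e7.trans e4)
  linarith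

/-- The same for the complement of `A`. -/
theorem color_compl (X : Finset C) (N : C → Finset (Fin J)) (hN : ∀ z ∈ X, (N z).card ≤ w)
    (hD : ∀ j, (X.filter (fun z => j ∈ N z)).card ≤ D) :
    (((univ : Finset (Finset (Fin J))).filter
      (fun A => 2 * 2 ^ w * (X.filter (fun z => Disjoint (N z) Aᶜ)).card < X.card)).card : ℝ) * (X.card : ℝ) ^ 2 ≤
      4 * 2 ^ w * J * D ^ 2 * 2 ^ J := by
  classical
  have h : ((univ : Finset (Finset (Fin J))).filter
      (fun A => 2 * 2 ^ w * (X.filter (fun z => Disjoint (N z) Aᶜ)).card < X.card)).card =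
      ((univ : Finset (Finset (Fin J))).filter
      (fun A => 2 * 2 ^ w * (X.filter (fun z => Disjoint (N z) A)).card < X.card)).card := by
    refine card_bij (fun A _ => Aᶜ) ?_ ?_ ?_
    · intro A hA
      rw [mem_filter] at hA ⊢
      exact ⟨mem_univ _, hA.2⟩
    · intro A _ A' _ h
      exact compl_injective h
    · intro A hA
      rw [mem_filter] at hA
      exact ⟨Aᶜ, by rw [mem_filter, compl_compl]; exact ⟨mem_univ _, hA.2⟩, compl_compl A⟩
  rw [h]
  exact color X N hN hD

end Pool.Agent.Helper43.BT
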