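import Mathlib

/-!
# Evaluation of polynomials at distinct points: surjectivity and bijectivity
-/

namespace Pool.Agent.Helper43.BT

open Finset

variable {K P : Type} [Field K]

/-- The values at the points `ω p` of the polynomial with the coefficients `x`. -/
def ev {j : ℕ} (ω : P → K) : (Fin j → K) →ₗ[K] (P → K) where
  toFun x := fun p => ∑ i : Fin j, x i * ω p ^ (i : ℕ)
  map_add' x y := by
    funext p
    simp only [Pi.add_apply, add_mul, Finset.sum_add_distrib]
  map_smul' c x := by
    funext p
    simp only [Pi.smul_apply, smul_eq_mul, RingHom.id_apply, Finset.mul_sum, mul_assoc]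

theorem ev_apply {j : ℕ} (ω : P → K) (x : Fin j → K) (p : P) : ev ω x p = ∑ i : Fin j, x i * ω p ^ (i : ℕ) := rfl

/-- Any values at `j` distinct points (or fewer) are possible. -/
theorem exists_ev_eq {j : ℕ} {ω : P → K} (hω : Function.Injective ω) (s : Finset P) (hs : s.card ≤ j) (y : P → K) :
    ∃ x : Fin j → K, ∀ p ∈ s, ev ω x p = y p := by
  classical
  refine ⟨fun i => (Lagrange.interpolate s ω y).coeff i, fun p hp => ?_⟩
  have h1 : (Lagrange.interpolate s ω y).eval (ω p) = y p :=
    Lagrange.eval_interpolate_at_node y hω.injOn hp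
  have h2 : (Lagrange.interpolate s ω y).natDegree < j ∨ j = 0 := by
    by_cases hj : j = 0
    · exact Or.inr hj
    · left
      have h3 : (Lagrange.interpolate s ω y).degree < s.card := Lagrange.degree_interpolate_lt y hω.injOn
      have h4 : (Lagrange.interpolate s ω y).degree < (j : ℕ) := lt_of_lt_of_le h3 (by exact_mod_cast hs)
      rcases eq_or_ne (Lagrange.interpolate s ω y) 0 with h0 | h0
      · rw [h0, Polynomial.natDegree_zero]
        omega
      · exact (Polynomial.natDegree_lt_iff_degree_lt h0).2 h4
  rcases h2 with h2 | h2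
  · rw [← h1, ev_apply, Polynomial.eval_eq_sum_range' h2, Finset.sum_range]
  · subst h2
    have : s = ∅ := Finset.card_eq_zero.1 (Nat.le_zero.1 hs)
    simp [this] at hp

/-- `j` distinct points: a bijection. -/
theorem bijective_ev {j : ℕ} [Fintype P] {ω : P → K} (hω : Function.Injective ω) (hP : Fintype.card P = j) :
    Function.Bijective (ev (j := j) ω) := by
  have hsurj : Function.Surjective (ev (j := j) ω) := by
    intro y
    obtain ⟨x, hx⟩ := exists_ev_eq hω Finset.univ (by rw [Finset.card_univ, hP]) y
    exact ⟨x, funext fun p => hx p (Finset.mem_univ p)⟩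
  refine ⟨?_, hsurj⟩
  have h : Module.finrank K (Fin j → K) = Module.finrank K (P → K) := by
    rw [Module.finrank_fin_fun, Module.finrank_fintype_fun_eq_card, hP]
  exact (LinearMap.injective_iff_surjective_of_finrank_eq_finrank h).2 hsurj

end Pool.Agent.Helper43.BT
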