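import Pool.Agent.Helper43.BT.Eval
import Pool.Agent.Helper74.NE.Defs

/-!
# The letters of a row as functions of the holes: few letters per node are jointly onto
-/

namespace Pool.Agent.Helper43.BT

open Finset
open Pool.Agent.Helper74.NE (fine fine_apply)

variable {n D m j : ℕ} [NeZero m] {K : Type} [Field K]

/-- The position (node, letter) in a row of the hole of the node `u` of the next row. -/
def pos (g : Fin D → Equiv.Perm (Fin n)) (h1 : Fin n → Fin D × Fin m) (u : Fin n) : Fin n × Fin m :=
  (g (h1 u).1 u, (h1 u).2)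

open Classical in
/-- The change of the letter `v` if the coefficients of the hole of the node `u ∈ A` change by `l u`. -/
noncomputable def phi (g : Fin D → Equiv.Perm (Fin n)) (ω : Fin D × Fin m → K) (h1 : Fin n → Fin D × Fin m)
    (A : Finset (Fin n)) (v : Fin n × Fin m) : (Fin n → Fin j → K) →ₗ[K] K where
  toFun l := ∑ c : Fin D × Fin m, ∑ u ∈ A, if pos g h1 u = fine g c v then ev ω (l u) c else 0
  map_add' l l' := by
    simp only [Pi.add_apply, map_add, ← Finset.sum_add_distrib]
    refine Finset.sum_congr rfl fun c _ => Finset.sum_congr rfl fun u _ => ?_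
    split_ifs <;> simp
  map_smul' a l := by
    simp only [Pi.smul_apply, map_smul, RingHom.id_apply, Finset.smul_sum]
    refine Finset.sum_congr rfl fun c _ => Finset.sum_congr rfl fun u _ => ?_
    split_ifs <;> simp

open Classical in
/-- At most `d` letters for each node of `A`: any values are possible, if `D * d ≤ j`. -/
theorem exists_phi_eq {d : ℕ} (g : Fin D → Equiv.Perm (Fin n)) {ω : Fin D × Fin m → K} (hω : Function.Injective ω)
    (h1 : Fin n → Fin D × Fin m) (A : Finset (Fin n)) (T : Fin n → Finset (Fin m)) (hT : ∀ u, (T u).card ≤ d)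
    (hj : D * d ≤ j) (y : Fin n × Fin m → K) :
    ∃ l : Fin n → Fin j → K, ∀ u ∈ A, ∀ t ∈ T u, phi (j := j) g ω h1 A (u, t) l = y (u, t) := by
  -- the coordinates of the hole of `u'` which matter
  have hP : ∀ u' : Fin n, (univ.filter (fun c : Fin D × Fin m =>
      (pos g h1 u').2 - c.2 ∈ T ((g c.1).symm (pos g h1 u').1))).card ≤ j := by
    intro u'
    have h2 : (univ.filter (fun c : Fin D × Fin m =>
        (pos g h1 u').2 - c.2 ∈ T ((g c.1).symm (pos g h1 u').1))) ⊆
        (univ : Finset (Fin D)).biUnion (fun s => ((T ((g s).symm (pos g h1 u').1)).image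
          (fun t => (s, (pos g h1 u').2 - t)))) := by
      intro c hc
      rw [mem_filter] at hc
      rw [mem_biUnion]
      refine ⟨c.1, mem_univ _, mem_image.2 ⟨(pos g h1 u').2 - c.2, hc.2, ?_⟩⟩
      rw [sub_sub_cancel]
    refine (card_le_card h2).trans (card_biUnion_le.trans ?_)
    calc ∑ s : Fin D, ((T ((g s).symm (pos g h1 u').1)).image (fun t => (s, (pos g h1 u').2 - t))).card
        ≤ ∑ s : Fin D, d := sum_le_sum fun s _ => card_image_le.trans (hT _)
      _ = D * d := by simp
      _ ≤ j := hj
  have hex : ∀ u' : Fin n, ∃ x : Fin j → K, ∀ c, (pos g h1 u').2 - c.2 ∈ T ((g c.1).symm (pos g h1 u').1) →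
      ev ω x c = if c.1 = (h1 u').1 then y (u', (pos g h1 u').2 - c.2) else 0 := by
    intro u'
    obtain ⟨x, hx⟩ := exists_ev_eq hω (univ.filter (fun c : Fin D × Fin m =>
      (pos g h1 u').2 - c.2 ∈ T ((g c.1).symm (pos g h1 u').1))) (hP u')
      (fun c => if c.1 = (h1 u').1 then y (u', (pos g h1 u').2 - c.2) else 0)
    exact ⟨x, fun c hc => hx c (mem_filter.2 ⟨mem_univ _, hc⟩)⟩
  choose l hl using hex
  refine ⟨l, fun u hu t ht => ?_⟩
  have key : ∀ c : Fin D × Fin m, ∀ u' ∈ A, (if pos g h1 u' = fine g c (u, t) then ev ω (l u') c else 0) =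
      if u' = u ∧ c = ((h1 u).1, (h1 u).2 - t) then y (u, t) else 0 := by
    intro c u' _
    by_cases h2 : pos g h1 u' = fine g c (u, t)
    · rw [if_pos h2]
      have e1 : (pos g h1 u').1 = g c.1 u := by rw [h2, fine_apply]
      have e2 : (pos g h1 u').2 = t + c.2 := by rw [h2, fine_apply]
      have e3 : (pos g h1 u').2 - c.2 = t := by rw [e2, add_sub_cancel_right]
      have e4 : (g c.1).symm (pos g h1 u').1 = u := by rw [e1, Equiv.symm_apply_apply]
      rw [hl u' c (by rw [e3, e4]; exact ht), e3]
      by_cases h3 : c.1 = (h1 u').1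
      · rw [if_pos h3]
        have h4 : u' = u := by
          have h5 : g (h1 u').1 u' = g c.1 u := e1
          rw [h3] at h5
          exact (g (h1 u').1).injective h5
        have h6 : c = ((h1 u).1, (h1 u).2 - t) := by
          refine Prod.ext (by rw [h3, h4]) ?_
          have h7 : (h1 u').2 = t + c.2 := e2
          rw [h4] at h7
          rw [h7]
          simp
        rw [if_pos ⟨h4, h6⟩, h4]
      · rw [if_neg h3, if_neg]
        rintro ⟨h4, h5⟩
        exact h3 (by rw [h5, h4])
    · rw [if_neg h2, if_neg]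
      rintro ⟨h3, h4⟩
      refine h2 ?_
      rw [h3, h4, fine_apply]
      unfold pos
      simp
  change (∑ c : Fin D × Fin m, ∑ u' ∈ A, if pos g h1 u' = fine g c (u, t) then ev ω (l u') c else 0) = y (u, t)
  rw [sum_congr rfl fun c _ => sum_congr rfl fun u' hu' => key c u' hu']
  rw [sum_comm, sum_eq_single_of_mem u hu fun u' _ hne => ?_]
  · rw [sum_eq_single ((h1 u).1, (h1 u).2 - t)]
    · rw [if_pos ⟨rfl, rfl⟩]
    · intro c _ hc
      rw [if_neg fun h => hc h.2]
    · intro h
      exact absurd (mem_univ _) h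
  · exact sum_eq_zero fun c _ => if_neg fun h => hne h.1

end Pool.Agent.Helper43.BT
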