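import Pool.Agent.Helper43.BT.Sample

/-!
# BT, W: E1, E2, E3
-/

set_option autoImplicit false

namespace Pool.Agent.Helper43.BT

open Finset

open Classical in
/-- E1: few samples miss an interval of `l` with at least `E` different elements of `X`. -/
theorem samples {C : Type} [Fintype C] [Nonempty C] {q E k : ℕ} (X : Finset C) (l : List C) (hl : l.length ≤ k)
    (hE : E ≤ Fintype.card C) :
    (Nat.card {H : Fin q → C // ∃ s t, E ≤ (((l.drop s).take t).toFinset ∩ X).card ∧
        ∀ i, H i ∉ ((l.drop s).take t).toFinset ∩ X} : ℝ) ≤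
      (k + 1) ^ 2 * (1 - (E : ℝ) / Fintype.card C) ^ q * Nat.card (Fin q → C) := by
  have hN : (0 : ℝ) < Fintype.card C := by exact_mod_cast Fintype.card_pos
  set T : Fin (k + 1) × Fin (k + 1) → Finset C := fun i => ((l.drop i.1).take i.2).toFinset ∩ X with hT
  have h1 : ∀ i, E ≤ (T i).card →
      (((univ : Finset (Fin q → C)).filter (fun H => ∀ k, H k ∉ T i)).card : ℝ) ≤
        (1 - (E : ℝ) / Fintype.card C) ^ q * (Fintype.card C : ℝ) ^ q := by
    intro i hi
    have e1 : (univ : Finset (Fin q → C)).filter (fun H => ∀ k, H k ∉ T i) = Fintype.piFinset (fun _ => (T i)ᶜ) := by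
      ext H
      simp [Fintype.mem_piFinset]
    rw [e1, Fintype.card_piFinset, prod_const, card_univ, Fintype.card_fin, card_compl]
    have h2 : (T i).card ≤ Fintype.card C := card_le_univ _
    have h3 : ((Fintype.card C - (T i).card : ℕ) : ℝ) ≤ Fintype.card C - E := by
      rw [Nat.cast_sub h2]
      have h4 : (E : ℝ) ≤ (T i).card := by exact_mod_cast hi
      linarith
    push_cast
    rw [← mul_pow]
    refine pow_le_pow_left₀ (Nat.cast_nonneg _) (h3.trans (le_of_eq ?_)) q
    field_simp
  have h2 : Nat.card {H : Fin q → C // ∃ s t, E ≤ (((l.drop s).take t).toFinset ∩ X).card ∧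
        ∀ i, H i ∉ ((l.drop s).take t).toFinset ∩ X} ≤
      ∑ i : Fin (k + 1) × Fin (k + 1),
        if E ≤ (T i).card then ((univ : Finset (Fin q → C)).filter (fun H => ∀ k, H k ∉ T i)).card else 0 := by
    rw [Nat.card_eq_fintype_card, Fintype.card_subtype]
    have h3 : (univ : Finset (Fin q → C)).filter (fun H => ∃ s t, E ≤ (((l.drop s).take t).toFinset ∩ X).card ∧
        ∀ i, H i ∉ ((l.drop s).take t).toFinset ∩ X) ⊆
        (univ : Finset (Fin (k + 1) × Fin (k + 1))).biUnion (fun i => if E ≤ (T i).card then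
          (univ : Finset (Fin q → C)).filter (fun H => ∀ k, H k ∉ T i) else ∅) := by
      intro H hH
      obtain ⟨s, t, hi, hk⟩ := (mem_filter.1 hH).2
      have e1 : (l.drop (min s l.length)).take (min t l.length) = (l.drop s).take t := by
        rcases le_total s l.length with h1 | h1
        · rw [min_eq_left h1]
          rcases le_total t l.length with h2 | h2
          · rw [min_eq_left h2]
          · rw [min_eq_right h2, List.take_of_length_le (by rw [List.length_drop]; omega),
              List.take_of_length_le (by rw [List.length_drop]; omega)]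
        · rw [min_eq_right h1, List.drop_of_length_le le_rfl, List.drop_of_length_le h1, List.take_nil, List.take_nil]
      rw [mem_biUnion]
      refine ⟨(⟨min s l.length, by omega⟩, ⟨min t l.length, by omega⟩), mem_univ _, ?_⟩
      have e2 : T (⟨min s l.length, by omega⟩, ⟨min t l.length, by omega⟩) = ((l.drop s).take t).toFinset ∩ X := by
        rw [hT]
        simp only [e1]
      rw [e2, if_pos hi]
      exact mem_filter.2 ⟨mem_univ _, hk⟩
    refine (card_le_card h3).trans (card_biUnion_le.trans (sum_le_sum fun i _ => ?_))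
    split_ifs <;> simp
  have h0 : (0 : ℝ) ≤ 1 - (E : ℝ) / Fintype.card C := by
    rw [sub_nonneg, div_le_one hN]
    exact_mod_cast hE
  calc (Nat.card {H : Fin q → C // ∃ s t, E ≤ (((l.drop s).take t).toFinset ∩ X).card ∧
        ∀ i, H i ∉ ((l.drop s).take t).toFinset ∩ X} : ℝ)
      ≤ ∑ i : Fin (k + 1) × Fin (k + 1), if E ≤ (T i).card then
          (((univ : Finset (Fin q → C)).filter (fun H => ∀ k, H k ∉ T i)).card : ℝ) else 0 := by
        exact_mod_cast h2
    _ ≤ ∑ _i : Fin (k + 1) × Fin (k + 1), (1 - (E : ℝ) / Fintype.card C) ^ q * (Fintype.card C : ℝ) ^ q := by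
        refine sum_le_sum fun i _ => ?_
        split_ifs with h
        · exact h1 i h
        · positivity
    _ = _ := by
        rw [sum_const, card_univ, nsmul_eq_mul, Fintype.card_prod, Fintype.card_fin, Nat.card_eq_fintype_card,
          Fintype.card_fun, Fintype.card_fin]
        push_cast
        ring

theorem card_sample {C : Type} {q : ℕ} (H : Fin q → C) (X : Finset C) : open Classical in
    Nat.card {i // H i ∈ X} = (univ.filter (fun i => H i ∈ X)).card := by
  classical
  rw [Nat.card_eq_fintype_card, Fintype.card_subtype]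

/-- E2: Chebyshev for the number of samples in `X`. -/
theorem few_samples {C : Type} [Fintype C] [Nonempty C] {q : ℕ} (hq : 0 < q) (X : Finset C) {ε : ℝ} (hε : 0 < ε)
    (hX : ε * Fintype.card C ≤ X.card) :
    (Nat.card {H : Fin q → C // (Nat.card {i // H i ∈ X} : ℝ) < 3 / 4 * ε * q} : ℝ) ≤
      16 / (ε * q) * Nat.card (Fin q → C) := by
  have h1 := few_low X q hε hX
  have hq' : (0 : ℝ) < q := by exact_mod_cast hq
  simp only [card_sample]
  have h2 : (Nat.card (Fin q → C) : ℝ) = (Fintype.card C : ℝ) ^ q := by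
    rw [Nat.card_eq_fintype_card, Fintype.card_fun, Fintype.card_fin]
    push_cast
    rfl
  have h3 : 16 / (ε * q) * (Fintype.card C : ℝ) ^ q = 16 * (Fintype.card C : ℝ) ^ q / (ε * q) := by ring
  rw [h2, h3, le_div_iff₀ (by positivity)]
  exact h1

/-- E3. -/
theorem many_samples {C : Type} [Fintype C] [Nonempty C] {q : ℕ} (hq : 0 < q) (X : Finset C) {ε : ℝ} (hε : 0 < ε)
    (hX : (X.card : ℝ) < ε / 2 * Fintype.card C) :
    (Nat.card {H : Fin q → C // 3 / 4 * ε * q ≤ (Nat.card {i // H i ∈ X} : ℝ)} : ℝ) ≤
      16 / (ε * q) * Nat.card (Fin q → C) := by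
  have h1 := few_high X q hε hX.le
  have hq' : (0 : ℝ) < q := by exact_mod_cast hq
  simp only [card_sample]
  have h2 : (Nat.card (Fin q → C) : ℝ) = (Fintype.card C : ℝ) ^ q := by
    rw [Nat.card_eq_fintype_card, Fintype.card_fun, Fintype.card_fin]
    push_cast
    rfl
  have h3 : 16 / (ε * q) * (Fintype.card C : ℝ) ^ q = 16 * (Fintype.card C : ℝ) ^ q / (ε * q) := by ring
  rw [h2, h3, le_div_iff₀ (by positivity)]
  have h3 : (0 : ℝ) ≤ (Fintype.card C : ℝ) ^ q := by positivity
  linarith

end Pool.Agent.Helper43.BT
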