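import Pool.Agent.Helper43.BT.Window
import Pool.Agent.Helper43.BT.Samples
import Pool.Agent.Helper99.BT.Defs

/-!
# BT, W: E4, one list
-/

set_option autoImplicit false

namespace Pool.Agent.Helper43.BT

open Finset Pool.Agent.Helper74.NW Pool.Agent.Helper96.BT
open Pool.Agent.Helper99.NK (times)
open Pool.Agent.Helper99.BT (seg partb GoodH)

section general

theorem nat_card_eq {γ : Type} [Fintype γ] (R : γ → Prop) : open Classical in
    (Nat.card {c // R c} : ℝ) = ∑ c, if R c then (1 : ℝ) else 0 := by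
  classical
  rw [Nat.card_eq_fintype_card, Fintype.card_subtype, card_filter]
  push_cast
  rfl

theorem card_pairs {α β : Type} [Fintype α] [Fintype β] (Q : α × β → Prop) :
    (Nat.card {p : α × β // Q p} : ℝ) = ∑ a, (Nat.card {b // Q (a, b)} : ℝ) := by
  classical
  rw [nat_card_eq, Fintype.sum_prod_type]
  exact sum_congr rfl fun a _ => (nat_card_eq fun b => Q (a, b)).symm

theorem card_le_total {β : Type} [Fintype β] (Q : β → Prop) : (Nat.card {b // Q b} : ℝ) ≤ Fintype.card β := by
  classical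
  rw [Nat.card_eq_fintype_card]
  exact_mod_cast Fintype.card_subtype_le Q

theorem card_mono {β : Type} [Fintype β] {Q R : β → Prop} (h : ∀ b, Q b → R b) :
    (Nat.card {b // Q b} : ℝ) ≤ Nat.card {b // R b} := by
  classical
  rw [nat_card_eq, nat_card_eq]
  refine sum_le_sum fun b _ => ?_
  by_cases hb : Q b
  · rw [if_pos hb, if_pos (h b hb)]
  · rw [if_neg hb]
    split_ifs <;> simp

theorem card_or {β : Type} [Fintype β] {Q R R' : β → Prop} (h : ∀ b, Q b → R b ∨ R' b) :
    (Nat.card {b // Q b} : ℝ) ≤ Nat.card {b // R b} + Nat.card {b // R' b} := by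
  classical
  rw [nat_card_eq, nat_card_eq, nat_card_eq, ← sum_add_distrib]
  refine sum_le_sum fun b _ => ?_
  by_cases hb : Q b
  · rw [if_pos hb]
    rcases h b hb with h1 | h1
    · rw [if_pos h1]
      split_ifs <;> norm_num
    · rw [if_pos h1]
      split_ifs <;> norm_num
  · rw [if_neg hb]
    split_ifs <;> norm_num

/-- A condition on the first component. -/
theorem card_fst {α β : Type} [Fintype α] [Fintype β] (Q : α → Prop) :
    (Nat.card {p : α × β // Q p.1} : ℝ) = Nat.card {a // Q a} * Fintype.card β := by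
  classical
  rw [card_pairs, nat_card_eq, sum_mul]
  refine sum_congr rfl fun a _ => ?_
  rw [nat_card_eq]
  by_cases h : Q a
  · simp [h]
  · simp [h]

/-- One `b` is good for most `a`. -/
theorem exists_good {α β : Type} [Fintype α] [Fintype β] [Nonempty β] (Q : α → β → Prop) {δ : ℝ}
    (h : ∀ a, (Nat.card {b // Q a b} : ℝ) ≤ δ * Fintype.card β) :
    ∃ b, (Nat.card {a // Q a b} : ℝ) ≤ δ * Fintype.card α := by
  classical
  have h1 : ∑ b : β, (Nat.card {a // Q a b} : ℝ) ≤ ∑ _b : β, δ * Fintype.card α := by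
    calc ∑ b : β, (Nat.card {a // Q a b} : ℝ) = ∑ a : α, (Nat.card {b // Q a b} : ℝ) := by
          simp only [nat_card_eq]
          exact sum_comm
      _ ≤ ∑ _a : α, δ * Fintype.card β := sum_le_sum fun a _ => h a
      _ = ∑ _b : β, δ * Fintype.card α := by
          rw [sum_const, sum_const, card_univ, card_univ, nsmul_eq_mul, nsmul_eq_mul]
          ring
  obtain ⟨b, -, hb⟩ := exists_le_of_sum_le (univ_nonempty) h1
  exact ⟨b, hb⟩

end general

section lists

variable {C : Type} [Fintype C] {q : ℕ}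

omit [Fintype C] in
theorem mem_partb {J : ℕ} {A : Finset (Fin J)} {b : ℕ → ℕ} {l : List C} {z : C} :
    z ∈ partb A b l ↔ ∃ j ∈ A, z ∈ seg b l j.val := by
  simp [partb, List.mem_flatMap]

/-- One of the two sides queries too many elements of `X`. -/
def Thin {J : ℕ} (X : Finset C) (w : ℕ) (l : List C) (p : (Fin q → C) × Finset (Fin J)) : Prop :=
  open Classical in
  2 * 2 ^ w * (X.filter (fun z => z ∉ partb p.2 (Pool.Agent.Helper99.BT.cutp p.1 w l) l)).card < X.card ∨
    2 * 2 ^ w * (X.filter (fun z => z ∉ partb p.2ᶜ (Pool.Agent.Helper99.BT.cutp p.1 w l) l)).card < X.card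

open Classical in
/-- Few samples and sets of windows leave a side with few unread elements of `X`. -/
theorem card_thin [Nonempty C] (l : List C) {d w J E : ℕ} (hE : E ≤ Fintype.card C) (hl : l.length ≤ 2 ^ d)
    (X : Finset C) (hX : ∀ z ∈ X, times l z ≤ w) :
    (Nat.card {p : (Fin q → C) × Finset (Fin J) // Thin X w l p} : ℝ) ≤
      ((2 ^ d + 1) ^ 2 * (1 - (E : ℝ) / Fintype.card C) ^ q + 8 * 2 ^ w * J * E ^ 2 / (X.card : ℝ) ^ 2) *
        ((Fintype.card C : ℝ) ^ q * 2 ^ J) := by
  have hN : (0 : ℝ) < Fintype.card C := by exact_mod_cast Fintype.card_pos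
  have hE0 : (0 : ℝ) ≤ 1 - (E : ℝ) / Fintype.card C := by
    rw [sub_nonneg, div_le_one hN]
    exact_mod_cast hE
  rcases X.eq_empty_or_nonempty with h0 | h0
  · have h1 : IsEmpty {p : (Fin q → C) × Finset (Fin J) // Thin X w l p} := by
      refine ⟨fun p => ?_⟩
      subst h0
      rcases p.2 with h | h <;> simp at h
    rw [Nat.card_of_isEmpty, Nat.cast_zero]
    positivity
  have hX0 : (0 : ℝ) < X.card := by exact_mod_cast h0.card_pos
  rw [card_pairs]
  -- the bad samples
  set Bad : (Fin q → C) → Prop := fun H => ∃ s t, E ≤ (((l.drop s).take t).toFinset ∩ X).card ∧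
        ∀ i, H i ∉ ((l.drop s).take t).toFinset ∩ X with hBad
  have hA : (Nat.card {H // Bad H} : ℝ) ≤ (2 ^ d + 1) ^ 2 * (1 - (E : ℝ) / Fintype.card C) ^ q *
      (Fintype.card C : ℝ) ^ q := by
    have h1 := samples (q := q) X l hl hE
    rw [Nat.card_eq_fintype_card (α := Fin q → C), Fintype.card_fun, Fintype.card_fin] at h1
    push_cast at h1
    exact h1
  have hB : ∀ H, ¬ Bad H → (Nat.card {A : Finset (Fin J) // Thin X w l (H, A)} : ℝ) ≤
      8 * 2 ^ w * J * E ^ 2 / (X.card : ℝ) ^ 2 * 2 ^ J := by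
    intro H hH
    have hgood : ∀ s e, E ≤ (X ∩ ((l.drop s).take e).toFinset).card → ∃ k, H k ∈ X ∩ ((l.drop s).take e).toFinset := by
      intro s e hse
      by_contra hno
      push Not at hno
      refine hH ⟨s, e, ?_, ?_⟩
      · rw [inter_comm]
        exact hse
      · rw [inter_comm]
        exact hno
    set N : C → Finset (Fin J) := fun z => univ.filter (fun j : Fin J =>
      z ∈ seg (Pool.Agent.Helper99.BT.cutp H w l) l j.val) with hN'
    have c1 : ∀ z ∈ X, (N z).card ≤ w := fun z hz => card_windows_le (H := H) (hX z hz)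
    have c2 : ∀ j, (X.filter (fun z => j ∈ N z)).card ≤ E := by
      intro j
      refine le_trans (card_le_card fun z hz => ?_) (win_few (H := H) hX hgood j)
      rw [mem_filter] at hz
      rw [mem_inter, List.mem_toFinset]
      exact ⟨hz.1, (mem_filter.1 hz.2).2⟩
    have c3 : ∀ A : Finset (Fin J), ∀ z, z ∉ partb A (Pool.Agent.Helper99.BT.cutp H w l) l ↔ Disjoint (N z) A := by
      intro A z
      rw [mem_partb, disjoint_left]
      constructor
      · intro h j hj hjA
        exact h ⟨j, hjA, (mem_filter.1 hj).2⟩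
      · rintro h ⟨j, hjA, hj⟩
        exact h (mem_filter.2 ⟨mem_univ _, hj⟩) hjA
    have c4 := color X N c1 c2
    have c5 := color_compl X N c1 c2
    have c6 : Nat.card {A : Finset (Fin J) // Thin X w l (H, A)} ≤
        ((univ : Finset (Finset (Fin J))).filter
          (fun A => 2 * 2 ^ w * (X.filter (fun z => Disjoint (N z) A)).card < X.card)).card +
        ((univ : Finset (Finset (Fin J))).filter
          (fun A => 2 * 2 ^ w * (X.filter (fun z => Disjoint (N z) Aᶜ)).card < X.card)).card := by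
      rw [Nat.card_eq_fintype_card, Fintype.card_subtype]
      refine le_trans (card_le_card fun A hA => ?_) (card_union_le _ _)
      rw [mem_union, mem_filter, mem_filter]
      have h1 := (mem_filter.1 hA).2
      unfold Thin at h1
      simp only [c3] at h1
      rcases h1 with h1 | h1
      · exact Or.inl ⟨mem_univ _, h1⟩
      · exact Or.inr ⟨mem_univ _, h1⟩
    have c7 : (Nat.card {A : Finset (Fin J) // Thin X w l (H, A)} : ℝ) * (X.card : ℝ) ^ 2 ≤
        8 * 2 ^ w * J * E ^ 2 * 2 ^ J := by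
      have c8 : (Nat.card {A : Finset (Fin J) // Thin X w l (H, A)} : ℝ) ≤
        (((univ : Finset (Finset (Fin J))).filter
          (fun A => 2 * 2 ^ w * (X.filter (fun z => Disjoint (N z) A)).card < X.card)).card : ℝ) +
        (((univ : Finset (Finset (Fin J))).filter
          (fun A => 2 * 2 ^ w * (X.filter (fun z => Disjoint (N z) Aᶜ)).card < X.card)).card : ℝ) := by
        exact_mod_cast c6
      have c9 := mul_le_mul_of_nonneg_right c8 (sq_nonneg (X.card : ℝ))
      rw [add_mul] at c9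
      linarith
    rw [div_mul_eq_mul_div, le_div_iff₀ (by positivity)]
    exact c7
  have hsum : ∑ H : Fin q → C, (Nat.card {A : Finset (Fin J) // Thin X w l (H, A)} : ℝ) ≤
      ∑ H : Fin q → C, ((if Bad H then (1 : ℝ) else 0) * 2 ^ J + 8 * 2 ^ w * J * E ^ 2 / (X.card : ℝ) ^ 2 * 2 ^ J) := by
    refine sum_le_sum fun H _ => ?_
    by_cases h : Bad H
    · rw [if_pos h, one_mul]
      have h1 := card_le_total (fun A : Finset (Fin J) => Thin X w l (H, A))
      rw [Fintype.card_finset, Fintype.card_fin] at h1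
      push_cast at h1
      have h2 : (0 : ℝ) ≤ 8 * 2 ^ w * J * E ^ 2 / (X.card : ℝ) ^ 2 * 2 ^ J := by positivity
      linarith
    · rw [if_neg h, zero_mul, zero_add]
      exact hB H h
  refine hsum.trans ?_
  rw [sum_add_distrib, ← sum_mul, sum_const, card_univ, nsmul_eq_mul, Fintype.card_fun, Fintype.card_fin]
  have h1 : (∑ H : Fin q → C, if Bad H then (1 : ℝ) else 0) = Nat.card {H // Bad H} := (nat_card_eq Bad).symm
  rw [h1]
  push_cast
  have h2 := mul_le_mul_of_nonneg_right hA (by positivity : (0 : ℝ) ≤ 2 ^ J)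
  calc _ ≤ (2 ^ d + 1) ^ 2 * (1 - (E : ℝ) / Fintype.card C) ^ q * (Fintype.card C : ℝ) ^ q * 2 ^ J +
        (Fintype.card C : ℝ) ^ q * (8 * 2 ^ w * J * E ^ 2 / (X.card : ℝ) ^ 2 * 2 ^ J) := by
        exact add_le_add h2 le_rfl
    _ = _ := by ring

end lists

/-- E4: one list. -/
theorem one_list {C : Type} [Fintype C] [Nonempty C] {q w T d E : ℕ} (hq : 0 < q) (hE0 : 0 < E)
    (hE : E ≤ Fintype.card C) {ε : ℝ}
    (h0 : 0 < ε) (hT : (Fintype.card C : ℝ) ≤ T + ε * Fintype.card C / (2 * 2 ^ w)) (l : List C)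
    (hl : l.length ≤ 2 ^ d) :
    (Nat.card {p : (Fin q → C) × Finset (Fin ((w + 1) * q + 1)) //
        (Rare ε w l ∧ ¬ GoodH p.1 w T (3 / 4 * ε * q) p.2 l) ∨
        (GoodH p.1 w T (3 / 4 * ε * q) p.2 l ∧ ¬ Rare (ε / 2) w l)} : ℝ) ≤
      ((2 ^ d + 1) ^ 2 * (1 - (E : ℝ) / Fintype.card C) ^ q +
        8 * 2 ^ w * ((w + 1) * q + 1) * E ^ 2 / (ε * Fintype.card C) ^ 2 + 16 / (ε * q)) *
        Nat.card ((Fin q → C) × Finset (Fin ((w + 1) * q + 1))) := by
  classical
  have hN : (0 : ℝ) < Fintype.card C := by exact_mod_cast Fintype.card_pos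
  have hq' : (0 : ℝ) < q := by exact_mod_cast hq
  have hE1 : (0 : ℝ) ≤ 1 - (E : ℝ) / Fintype.card C := by
    rw [sub_nonneg, div_le_one hN]
    exact_mod_cast hE
  have hcard : (Nat.card ((Fin q → C) × Finset (Fin ((w + 1) * q + 1))) : ℝ) =
      (Fintype.card C : ℝ) ^ q * 2 ^ ((w + 1) * q + 1) := by
    rw [Nat.card_eq_fintype_card, Fintype.card_prod, Fintype.card_fun, Fintype.card_fin, Fintype.card_finset,
      Fintype.card_fin]
    push_cast
    rfl
  set X : Finset C := univ.filter (fun z => times l z ≤ w) with hXdef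
  have hX : ∀ z ∈ X, times l z ≤ w := fun z hz => (mem_filter.1 hz).2
  -- rare
  have hrare : ∀ e : ℝ, Rare e w l ↔ e * Fintype.card C ≤ X.card := by
    intro e
    constructor
    · rintro ⟨Y, hY, hYw⟩
      refine hY.trans ?_
      exact_mod_cast card_le_card fun z hz => mem_filter.2 ⟨mem_univ _, hYw z hz⟩
    · intro h
      exact ⟨X, h, fun z hz => hX z hz⟩
  have hmem : ∀ H : Fin q → C, (Nat.card {i // times l (H i) ≤ w} : ℝ) = Nat.card {i // H i ∈ X} := by
    intro H
    congr 1
    refine Nat.card_congr (Equiv.subtypeEquivRight fun i => ?_)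
    rw [hXdef, mem_filter]
    exact ⟨fun h => ⟨mem_univ _, h⟩, fun h => h.2⟩
  by_cases hR : Rare ε w l
  · have hXε := (hrare ε).1 hR
    have hR2 : Rare (ε / 2) w l := by
      rw [hrare]
      have : ε / 2 * Fintype.card C ≤ ε * Fintype.card C := mul_le_mul_of_nonneg_right (by linarith) hN.le
      linarith
    have hXpos : (0 : ℝ) < ε * Fintype.card C := by positivity
    have e1 : (Nat.card {p : (Fin q → C) × Finset (Fin ((w + 1) * q + 1)) //
        (Rare ε w l ∧ ¬ GoodH p.1 w T (3 / 4 * ε * q) p.2 l) ∨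
        (GoodH p.1 w T (3 / 4 * ε * q) p.2 l ∧ ¬ Rare (ε / 2) w l)} : ℝ) ≤
        Nat.card {p : (Fin q → C) × Finset (Fin ((w + 1) * q + 1)) // (Nat.card {i // p.1 i ∈ X} : ℝ) < 3 / 4 * ε * q} +
        Nat.card {p : (Fin q → C) × Finset (Fin ((w + 1) * q + 1)) // Thin X w l p} := by
      refine card_or fun p hp => ?_
      have h1 : ¬ GoodH p.1 w T (3 / 4 * ε * q) p.2 l := by
        rcases hp with hp | hp
        · exact hp.2
        · exact absurd hR2 hp.2
      by_contra h2
      push Not at h2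
      refine h1 ⟨?_, ?_, ?_⟩
      · rw [hmem]
        exact h2.1
      · have h3 : ¬ (2 * 2 ^ w * (X.filter (fun z => z ∉ partb p.2 (Pool.Agent.Helper99.BT.cutp p.1 w l) l)).card <
            X.card) := fun h => h2.2 (Or.inl h)
        have h4 : (X.card : ℝ) ≤ 2 * 2 ^ w * ((free (partb p.2 (Pool.Agent.Helper99.BT.cutp p.1 w l) l)).card : ℝ) := by
          have h5 : (X.filter (fun z => z ∉ partb p.2 (Pool.Agent.Helper99.BT.cutp p.1 w l) l)).card ≤
              (free (partb p.2 (Pool.Agent.Helper99.BT.cutp p.1 w l) l)).card :=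
            card_le_card fun z hz => mem_filter.2 ⟨mem_univ _, (mem_filter.1 hz).2⟩
          have h6 : X.card ≤ 2 * 2 ^ w * (free (partb p.2 (Pool.Agent.Helper99.BT.cutp p.1 w l) l)).card :=
            (not_lt.1 h3).trans (Nat.mul_le_mul_left _ h5)
          exact_mod_cast h6
        have h7 : ε * Fintype.card C / (2 * 2 ^ w) ≤
            ((free (partb p.2 (Pool.Agent.Helper99.BT.cutp p.1 w l) l)).card : ℝ) := by
          rw [div_le_iff₀ (by positivity)]
          linarith
        have h8 : (Fintype.card C : ℝ) ≤ ((free (partb p.2 (Pool.Agent.Helper99.BT.cutp p.1 w l) l)).card : ℝ) + T := by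
          linarith
        exact_mod_cast h8
      · have h3 : ¬ (2 * 2 ^ w * (X.filter (fun z => z ∉ partb p.2ᶜ (Pool.Agent.Helper99.BT.cutp p.1 w l) l)).card <
            X.card) := fun h => h2.2 (Or.inr h)
        have h4 : (X.card : ℝ) ≤ 2 * 2 ^ w * ((free (partb p.2ᶜ (Pool.Agent.Helper99.BT.cutp p.1 w l) l)).card : ℝ) := by
          have h5 : (X.filter (fun z => z ∉ partb p.2ᶜ (Pool.Agent.Helper99.BT.cutp p.1 w l) l)).card ≤
              (free (partb p.2ᶜ (Pool.Agent.Helper99.BT.cutp p.1 w l) l)).card :=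
            card_le_card fun z hz => mem_filter.2 ⟨mem_univ _, (mem_filter.1 hz).2⟩
          have h6 : X.card ≤ 2 * 2 ^ w * (free (partb p.2ᶜ (Pool.Agent.Helper99.BT.cutp p.1 w l) l)).card :=
            (not_lt.1 h3).trans (Nat.mul_le_mul_left _ h5)
          exact_mod_cast h6
        have h7 : ε * Fintype.card C / (2 * 2 ^ w) ≤
            ((free (partb p.2ᶜ (Pool.Agent.Helper99.BT.cutp p.1 w l) l)).card : ℝ) := by
          rw [div_le_iff₀ (by positivity)]
          linarith
        have h8 : (Fintype.card C : ℝ) ≤ ((free (partb p.2ᶜ (Pool.Agent.Helper99.BT.cutp p.1 w l) l)).card : ℝ) + T := by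
          linarith
        exact_mod_cast h8
    have e2 : (Nat.card {p : (Fin q → C) × Finset (Fin ((w + 1) * q + 1)) //
        (Nat.card {i // p.1 i ∈ X} : ℝ) < 3 / 4 * ε * q} : ℝ) ≤
        16 / (ε * q) * ((Fintype.card C : ℝ) ^ q * 2 ^ ((w + 1) * q + 1)) := by
      have h1 := card_fst (β := Finset (Fin ((w + 1) * q + 1)))
        (fun H : Fin q → C => (Nat.card {i // H i ∈ X} : ℝ) < 3 / 4 * ε * q)
      rw [h1, Fintype.card_finset, Fintype.card_fin]
      have h2 := few_samples hq X h0 hXε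
      have h3 : (Nat.card (Fin q → C) : ℝ) = (Fintype.card C : ℝ) ^ q := by
        rw [Nat.card_eq_fintype_card, Fintype.card_fun, Fintype.card_fin]
        push_cast
        rfl
      rw [h3] at h2
      push_cast
      calc _ ≤ 16 / (ε * q) * (Fintype.card C : ℝ) ^ q * 2 ^ ((w + 1) * q + 1) :=
            mul_le_mul_of_nonneg_right h2 (by positivity)
        _ = _ := by ring
    have e3 := card_thin (q := q) (J := (w + 1) * q + 1) l hE hl X hX
    have e4 : 8 * 2 ^ w * (((w + 1) * q + 1 : ℕ) : ℝ) * (E : ℝ) ^ 2 / (X.card : ℝ) ^ 2 ≤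
        8 * 2 ^ w * ((w + 1) * q + 1) * (E : ℝ) ^ 2 / (ε * Fintype.card C) ^ 2 := by
      push_cast
      exact div_le_div_of_nonneg_left (by positivity) (by positivity) (pow_le_pow_left₀ hXpos.le hXε 2)
    rw [hcard]
    have e5 : (0 : ℝ) ≤ (Fintype.card C : ℝ) ^ q * 2 ^ ((w + 1) * q + 1) := by positivity
    calc _ ≤ _ := e1
      _ ≤ 16 / (ε * q) * ((Fintype.card C : ℝ) ^ q * 2 ^ ((w + 1) * q + 1)) +
          ((2 ^ d + 1) ^ 2 * (1 - (E : ℝ) / Fintype.card C) ^ q +
          8 * 2 ^ w * (((w + 1) * q + 1 : ℕ) : ℝ) * (E : ℝ) ^ 2 / (X.card : ℝ) ^ 2) *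
          ((Fintype.card C : ℝ) ^ q * 2 ^ ((w + 1) * q + 1)) := add_le_add e2 e3
      _ ≤ 16 / (ε * q) * ((Fintype.card C : ℝ) ^ q * 2 ^ ((w + 1) * q + 1)) +
          ((2 ^ d + 1) ^ 2 * (1 - (E : ℝ) / Fintype.card C) ^ q +
          8 * 2 ^ w * ((w + 1) * q + 1) * (E : ℝ) ^ 2 / (ε * Fintype.card C) ^ 2) *
          ((Fintype.card C : ℝ) ^ q * 2 ^ ((w + 1) * q + 1)) :=
          add_le_add le_rfl (mul_le_mul_of_nonneg_right (add_le_add le_rfl e4) e5)
      _ = _ := by ring
  · -- not rare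
    have hfirst : (0 : ℝ) ≤ (2 ^ d + 1) ^ 2 * (1 - (E : ℝ) / Fintype.card C) ^ q +
        8 * 2 ^ w * ((w + 1) * q + 1) * E ^ 2 / (ε * Fintype.card C) ^ 2 := by positivity
    by_cases hR2 : Rare (ε / 2) w l
    · have h1 : IsEmpty {p : (Fin q → C) × Finset (Fin ((w + 1) * q + 1)) //
        (Rare ε w l ∧ ¬ GoodH p.1 w T (3 / 4 * ε * q) p.2 l) ∨
        (GoodH p.1 w T (3 / 4 * ε * q) p.2 l ∧ ¬ Rare (ε / 2) w l)} := by
        refine ⟨fun p => ?_⟩
        rcases p.2 with h | h
        · exact hR h.1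
        · exact h.2 hR2
      rw [Nat.card_of_isEmpty, Nat.cast_zero]
      have h2 : (0 : ℝ) ≤ 16 / (ε * q) := by positivity
      positivity
    · have hX2 : (X.card : ℝ) < ε / 2 * Fintype.card C := by
        by_contra h
        exact hR2 ((hrare _).2 (not_lt.1 h))
      have e1 : (Nat.card {p : (Fin q → C) × Finset (Fin ((w + 1) * q + 1)) //
          (Rare ε w l ∧ ¬ GoodH p.1 w T (3 / 4 * ε * q) p.2 l) ∨
          (GoodH p.1 w T (3 / 4 * ε * q) p.2 l ∧ ¬ Rare (ε / 2) w l)} : ℝ) ≤
          Nat.card {p : (Fin q → C) × Finset (Fin ((w + 1) * q + 1)) //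
            3 / 4 * ε * q ≤ (Nat.card {i // p.1 i ∈ X} : ℝ)} := by
        refine card_mono fun p hp => ?_
        rcases hp with hp | hp
        · exact absurd hp.1 hR
        · rw [← hmem]
          exact hp.1.1
      have e2 : (Nat.card {p : (Fin q → C) × Finset (Fin ((w + 1) * q + 1)) //
          3 / 4 * ε * q ≤ (Nat.card {i // p.1 i ∈ X} : ℝ)} : ℝ) ≤
          16 / (ε * q) * ((Fintype.card C : ℝ) ^ q * 2 ^ ((w + 1) * q + 1)) := by
        have h1 := card_fst (β := Finset (Fin ((w + 1) * q + 1)))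
          (fun H : Fin q → C => 3 / 4 * ε * q ≤ (Nat.card {i // H i ∈ X} : ℝ))
        rw [h1, Fintype.card_finset, Fintype.card_fin]
        have h2 := many_samples hq X h0 hX2
        have h3 : (Nat.card (Fin q → C) : ℝ) = (Fintype.card C : ℝ) ^ q := by
          rw [Nat.card_eq_fintype_card, Fintype.card_fun, Fintype.card_fin]
          push_cast
          rfl
        rw [h3] at h2
        push_cast
        calc _ ≤ 16 / (ε * q) * (Fintype.card C : ℝ) ^ q * 2 ^ ((w + 1) * q + 1) :=
              mul_le_mul_of_nonneg_right h2 (by positivity)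
          _ = _ := by ring
      rw [hcard]
      have e5 : (0 : ℝ) ≤ (Fintype.card C : ℝ) ^ q * 2 ^ ((w + 1) * q + 1) := by positivity
      calc _ ≤ _ := e1
        _ ≤ _ := e2
        _ ≤ _ := by
          refine mul_le_mul_of_nonneg_right ?_ e5
          linarith

end Pool.Agent.Helper43.BT
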