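import Mathlib

/-!
# Random samples `H : Fin q → C`
-/

namespace Pool.Agent.Helper43.BT

open Finset

variable {C : Type} [Fintype C]

/-- Few samples miss one of the sets `T i` with at least `D` elements. -/
theorem sample {ι : Type} [Fintype ι] (T : ι → Finset C) (D q : ℕ) :
    (Nat.card {H : Fin q → C // ∃ i, D ≤ (T i).card ∧ ∀ k, H k ∉ T i} : ℝ) ≤
      Fintype.card ι * Real.exp (-(q * D : ℝ) / Fintype.card C) * (Fintype.card C : ℝ) ^ q := by
  classical
  rcases isEmpty_or_nonempty C with hC | hC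
  · -- no bits
    rcases Nat.eq_zero_or_pos q with hq | hq
    · subst hq
      rw [Fintype.card_eq_zero (α := C)]
      simp only [Nat.cast_zero, zero_mul, neg_zero, zero_div, Real.exp_zero, mul_one, pow_zero]
      by_cases hι : Fintype.card ι = 0
      · have hE : IsEmpty ι := Fintype.card_eq_zero_iff.1 hι
        rw [hι]
        have : IsEmpty {H : Fin 0 → C // ∃ i, D ≤ (T i).card ∧ ∀ k, H k ∉ T i} :=
          ⟨fun H => by obtain ⟨i, -⟩ := H.2; exact hE.elim i⟩
        simp
      · have h1 : (1 : ℝ) ≤ Fintype.card ι := by exact_mod_cast Nat.one_le_iff_ne_zero.2 hι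
        refine le_trans ?_ h1
        have h2 : Nat.card {H : Fin 0 → C // ∃ i, D ≤ (T i).card ∧ ∀ k, H k ∉ T i} ≤ 1 := by
          rw [Nat.card_eq_fintype_card]
          exact Fintype.card_le_one_iff_subsingleton.2 inferInstance
        exact_mod_cast h2
    · have : IsEmpty {H : Fin q → C // ∃ i, D ≤ (T i).card ∧ ∀ k, H k ∉ T i} :=
        ⟨fun H => hC.elim (H.1 ⟨0, hq⟩)⟩
      rw [Nat.card_of_isEmpty, Nat.cast_zero]
      positivity
  have hN : (0 : ℝ) < Fintype.card C := by exact_mod_cast Fintype.card_pos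
  have h1 : ∀ i, D ≤ (T i).card →
      (((univ : Finset (Fin q → C)).filter (fun H => ∀ k, H k ∉ T i)).card : ℝ) ≤
        Real.exp (-(q * D : ℝ) / Fintype.card C) * (Fintype.card C : ℝ) ^ q := by
    intro i hi
    have e1 : (univ : Finset (Fin q → C)).filter (fun H => ∀ k, H k ∉ T i) = Fintype.piFinset (fun _ => (T i)ᶜ) := by
      ext H
      simp [Fintype.mem_piFinset]
    rw [e1, Fintype.card_piFinset, prod_const, card_univ, Fintype.card_fin, card_compl]
    have h2 : (T i).card ≤ Fintype.card C := card_le_univ _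
    have h3 : ((Fintype.card C - (T i).card : ℕ) : ℝ) ≤ Fintype.card C * Real.exp (-(D : ℝ) / Fintype.card C) := by
      rw [Nat.cast_sub h2]
      have h4 : (D : ℝ) ≤ (T i).card := by exact_mod_cast hi
      have h5 := Real.add_one_le_exp (-(D : ℝ) / Fintype.card C)
      calc (Fintype.card C : ℝ) - (T i).card ≤ Fintype.card C - D := by linarith
        _ = Fintype.card C * (-(D : ℝ) / Fintype.card C + 1) := by field_simp; ring
        _ ≤ _ := mul_le_mul_of_nonneg_left h5 hN.le
    push_cast
    calc ((Fintype.card C - (T i).card : ℕ) : ℝ) ^ q ≤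
          (Fintype.card C * Real.exp (-(D : ℝ) / Fintype.card C)) ^ q :=
          pow_le_pow_left₀ (Nat.cast_nonneg _) h3 q
      _ = Real.exp (-(q * D : ℝ) / Fintype.card C) * (Fintype.card C : ℝ) ^ q := by
        rw [mul_pow, ← Real.exp_nat_mul, mul_comm]
        congr 2
        ring
  have h2 : Nat.card {H : Fin q → C // ∃ i, D ≤ (T i).card ∧ ∀ k, H k ∉ T i} ≤
      ∑ i : ι, if D ≤ (T i).card then ((univ : Finset (Fin q → C)).filter (fun H => ∀ k, H k ∉ T i)).card else 0 := by
    rw [Nat.card_eq_fintype_card, Fintype.card_subtype]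
    have h3 : (univ : Finset (Fin q → C)).filter (fun H => ∃ i, D ≤ (T i).card ∧ ∀ k, H k ∉ T i) ⊆
        (univ : Finset ι).biUnion (fun i => if D ≤ (T i).card then
          (univ : Finset (Fin q → C)).filter (fun H => ∀ k, H k ∉ T i) else ∅) := by
      intro H hH
      obtain ⟨i, hi, hk⟩ := (mem_filter.1 hH).2
      rw [mem_biUnion]
      refine ⟨i, mem_univ _, ?_⟩
      rw [if_pos hi]
      exact mem_filter.2 ⟨mem_univ _, hk⟩
    refine (card_le_card h3).trans (card_biUnion_le.trans (sum_le_sum fun i _ => ?_))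
    split_ifs <;> simp
  calc (Nat.card {H : Fin q → C // ∃ i, D ≤ (T i).card ∧ ∀ k, H k ∉ T i} : ℝ)
      ≤ ∑ i : ι, if D ≤ (T i).card then
          (((univ : Finset (Fin q → C)).filter (fun H => ∀ k, H k ∉ T i)).card : ℝ) else 0 := by
        exact_mod_cast h2
    _ ≤ ∑ _i : ι, Real.exp (-(q * D : ℝ) / Fintype.card C) * (Fintype.card C : ℝ) ^ q := by
        refine sum_le_sum fun i _ => ?_
        split_ifs with h
        · exact h1 i h
        · positivity
    _ = _ := by
        rw [sum_const, card_univ, nsmul_eq_mul]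
        ring

open Classical in
/-- The second moment of the number of samples in `X`. -/
theorem second_moment (X : Finset C) (q : ℕ) :
    ∑ H : Fin q → C, (((univ.filter (fun i => H i ∈ X)).card : ℝ) - q * (X.card / Fintype.card C)) ^ 2 ≤
      q * (X.card / Fintype.card C) * (Fintype.card C : ℝ) ^ q := by
  rcases Nat.eq_zero_or_pos q with hq | hq
  · subst hq
    simp
  rcases isEmpty_or_nonempty C with hC | hC
  · have : IsEmpty (Fin q → C) := ⟨fun H => hC.elim (H ⟨0, hq⟩)⟩
    rw [Fintype.sum_empty]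
    positivity
  have hN : (0 : ℝ) < Fintype.card C := by exact_mod_cast Fintype.card_pos
  set N : ℝ := ((Fintype.card C : ℕ) : ℝ) with hNdef
  set p : ℝ := X.card / N with hp
  have hp0 : 0 ≤ p := by positivity
  have hp1 : p ≤ 1 := by
    rw [hp, div_le_one hN, hNdef]
    exact_mod_cast card_le_univ X
  set a : C → ℝ := fun z => (if z ∈ X then 1 else 0) - p with ha
  have ha0 : ∑ z, a z = 0 := by
    rw [ha]
    simp only [sum_sub_distrib, sum_const, card_univ, nsmul_eq_mul]
    rw [← sum_filter, filter_mem_eq_inter, univ_inter, sum_const, nsmul_eq_mul, mul_one, hp, ← hNdef]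
    field_simp
    ring
  have ha2 : ∑ z, a z ^ 2 ≤ X.card := by
    have h1 : ∀ z, a z ^ 2 = (1 - 2 * p) * (if z ∈ X then 1 else 0) + p ^ 2 := by
      intro z
      rw [ha]
      simp only
      split_ifs <;> ring
    rw [sum_congr rfl fun z _ => h1 z, sum_add_distrib, ← mul_sum, ← sum_filter, filter_mem_eq_inter, univ_inter,
      sum_const, sum_const, card_univ, nsmul_eq_mul, nsmul_eq_mul, mul_one, ← hNdef]
    have h2 : N * p = X.card := by rw [hp]; field_simp
    have h3 : N * p ^ 2 = X.card * p := by rw [sq, ← mul_assoc, h2]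
    rw [h3]
    have h4 : (0 : ℝ) ≤ X.card := Nat.cast_nonneg _
    nlinarith
  have h1 : ∀ H : Fin q → C, (((univ.filter (fun i => H i ∈ X)).card : ℝ) - q * p) ^ 2 =
      ∑ i, ∑ j, a (H i) * a (H j) := by
    intro H
    have h2 : ((univ.filter (fun i => H i ∈ X)).card : ℝ) - q * p = ∑ i, a (H i) := by
      rw [ha]
      simp only [sum_sub_distrib, sum_const, card_univ, nsmul_eq_mul, Fintype.card_fin]
      rw [← sum_filter, sum_const, nsmul_eq_mul, mul_one]
    rw [h2, sq, sum_mul_sum]
  have h2 : ∀ i j : Fin q, ∑ H : Fin q → C, a (H i) * a (H j) = if i = j then (∑ z, a z ^ 2) * N ^ (q - 1) else 0 := by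
    intro i j
    have key : ∀ g : Fin q → C → ℝ, ∑ H : Fin q → C, ∏ k, g k (H k) = ∏ k, ∑ z, g k z := by
      intro g
      rw [prod_univ_sum, Fintype.piFinset_univ]
    by_cases hij : i = j
    · subst hij
      rw [if_pos rfl]
      have h3 := key (fun k z => if k = i then a z ^ 2 else 1)
      have h4 : ∀ H : Fin q → C, (∏ k, if k = i then a (H k) ^ 2 else 1) = a (H i) * a (H i) := by
        intro H
        rw [prod_ite_eq' univ i (fun k => a (H k) ^ 2), if_pos (mem_univ _), sq]
      simp only [h4] at h3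
      rw [h3, ← mul_prod_erase univ _ (mem_univ i)]
      simp only [if_true]
      congr 1
      rw [prod_congr rfl fun k hk => show ∑ z : C, (if k = i then a z ^ 2 else 1) = N by
        rw [sum_congr rfl fun z _ => if_neg (ne_of_mem_erase hk), sum_const, card_univ, nsmul_eq_mul, mul_one]]
      rw [prod_const, card_erase_of_mem (mem_univ _), card_univ, Fintype.card_fin]
    · rw [if_neg hij]
      have h3 := key (fun k z => (if k = i then a z else 1) * (if k = j then a z else 1))
      have h4 : ∀ H : Fin q → C, (∏ k, (if k = i then a (H k) else 1) * (if k = j then a (H k) else 1)) =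
          a (H i) * a (H j) := by
        intro H
        rw [prod_mul_distrib, prod_ite_eq' univ i (fun k => a (H k)), prod_ite_eq' univ j (fun k => a (H k)),
          if_pos (mem_univ _), if_pos (mem_univ _)]
      simp only [h4] at h3
      rw [h3]
      refine prod_eq_zero (mem_univ i) ?_
      simp only [if_true, if_neg hij, mul_one]
      exact ha0
  rw [sum_congr rfl fun H _ => h1 H, sum_comm]
  rw [sum_congr rfl fun i _ => sum_comm]
  simp only [h2]
  simp only [sum_ite_eq, mem_univ, if_true, sum_const, card_univ, Fintype.card_fin, nsmul_eq_mul]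
  have h5 : (q : ℝ) * p * N ^ q = q * (X.card * N ^ (q - 1)) := by
    have h6 : N ^ q = N * N ^ (q - 1) := by
      rw [← pow_succ', Nat.sub_add_cancel hq]
    rw [h6, hp]
    field_simp
  rw [h5]
  refine mul_le_mul_of_nonneg_left ?_ (Nat.cast_nonneg _)
  exact mul_le_mul_of_nonneg_right ha2 (by positivity)

open Classical in
/-- If `X` has at least `e |C|` elements, few samples have less than `3 e q / 4` members in `X`. -/
theorem few_low (X : Finset C) (q : ℕ) {e : ℝ} (he : 0 < e) (hX : e * Fintype.card C ≤ X.card) :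
    (Nat.card {H : Fin q → C // ((univ.filter (fun i => H i ∈ X)).card : ℝ) < 3 / 4 * e * q} : ℝ) * (e * q) ≤
      16 * (Fintype.card C : ℝ) ^ q := by
  rcases Nat.eq_zero_or_pos q with hq | hq
  · subst hq
    simp
  rcases isEmpty_or_nonempty C with hC | hC
  · have : IsEmpty {H : Fin q → C // ((univ.filter (fun i => H i ∈ X)).card : ℝ) < 3 / 4 * e * q} :=
      ⟨fun H => hC.elim (H.1 ⟨0, hq⟩)⟩
    rw [Nat.card_of_isEmpty, Nat.cast_zero, zero_mul]
    positivity
  have hN : (0 : ℝ) < Fintype.card C := by exact_mod_cast Fintype.card_pos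
  have hq' : (0 : ℝ) < q := by exact_mod_cast hq
  set p : ℝ := X.card / Fintype.card C with hp
  have hpe : e ≤ p := by
    rw [hp, le_div_iff₀ hN]
    exact hX
  have hp0 : 0 < p := lt_of_lt_of_le he hpe
  have h1 := second_moment X q
  rw [← hp] at h1
  have h2 : (Nat.card {H : Fin q → C // ((univ.filter (fun i => H i ∈ X)).card : ℝ) < 3 / 4 * e * q} : ℝ) *
      (p * q / 4) ^ 2 ≤
      ∑ H : Fin q → C, (((univ.filter (fun i => H i ∈ X)).card : ℝ) - q * p) ^ 2 := by
    rw [Nat.card_eq_fintype_card, Fintype.card_subtype, ← nsmul_eq_mul, ← sum_const]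
    refine le_trans (sum_le_sum fun H hH => ?_)
      (sum_le_sum_of_subset_of_nonneg (filter_subset (fun H : Fin q → C =>
        ((univ.filter (fun i => H i ∈ X)).card : ℝ) < 3 / 4 * e * q) univ) fun _ _ _ => sq_nonneg _)
    have h3 := (mem_filter.1 hH).2
    have h4 : p * q / 4 ≤ q * p - ((univ.filter (fun i => H i ∈ X)).card : ℝ) := by
      have : e * q ≤ p * q := mul_le_mul_of_nonneg_right hpe hq'.le
      nlinarith
    have h5 : 0 ≤ p * q / 4 := by positivity
    nlinarith
  have h3 : (Nat.card {H : Fin q → C // ((univ.filter (fun i => H i ∈ X)).card : ℝ) < 3 / 4 * e * q} : ℝ) * (p * q) ≤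
      16 * (Fintype.card C : ℝ) ^ q := by
    have h4 := h2.trans h1
    have h5 : 0 < p * q := by positivity
    refine le_of_mul_le_mul_right ?_ h5
    nlinarith
  refine le_trans ?_ h3
  exact mul_le_mul_of_nonneg_left (mul_le_mul_of_nonneg_right hpe hq'.le) (Nat.cast_nonneg _)

open Classical in
/-- If `X` has at most `e |C| / 2` elements, few samples have at least `3 e q / 4` members in `X`. -/
theorem few_high (X : Finset C) (q : ℕ) {e : ℝ} (he : 0 < e) (hX : (X.card : ℝ) ≤ e / 2 * Fintype.card C) :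
    (Nat.card {H : Fin q → C // 3 / 4 * e * q ≤ ((univ.filter (fun i => H i ∈ X)).card : ℝ)} : ℝ) * (e * q) ≤
      8 * (Fintype.card C : ℝ) ^ q := by
  rcases Nat.eq_zero_or_pos q with hq | hq
  · subst hq
    simp
  rcases isEmpty_or_nonempty C with hC | hC
  · have : IsEmpty {H : Fin q → C // 3 / 4 * e * q ≤ ((univ.filter (fun i => H i ∈ X)).card : ℝ)} :=
      ⟨fun H => hC.elim (H.1 ⟨0, hq⟩)⟩
    rw [Nat.card_of_isEmpty, Nat.cast_zero, zero_mul]
    positivity
  have hN : (0 : ℝ) < Fintype.card C := by exact_mod_cast Fintype.card_pos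
  have hq' : (0 : ℝ) < q := by exact_mod_cast hq
  set p : ℝ := X.card / Fintype.card C with hp
  have hpe : p ≤ e / 2 := by
    rw [hp, div_le_iff₀ hN]
    exact hX
  have hp0 : 0 ≤ p := by positivity
  have h1 := second_moment X q
  rw [← hp] at h1
  have h2 : (Nat.card {H : Fin q → C // 3 / 4 * e * q ≤ ((univ.filter (fun i => H i ∈ X)).card : ℝ)} : ℝ) *
      (e * q / 4) ^ 2 ≤
      ∑ H : Fin q → C, (((univ.filter (fun i => H i ∈ X)).card : ℝ) - q * p) ^ 2 := by
    rw [Nat.card_eq_fintype_card, Fintype.card_subtype, ← nsmul_eq_mul, ← sum_const]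
    refine le_trans (sum_le_sum fun H hH => ?_)
      (sum_le_sum_of_subset_of_nonneg (filter_subset (fun H : Fin q → C =>
        3 / 4 * e * q ≤ ((univ.filter (fun i => H i ∈ X)).card : ℝ)) univ) fun _ _ _ => sq_nonneg _)
    have h3 := (mem_filter.1 hH).2
    have h4 : e * q / 4 ≤ ((univ.filter (fun i => H i ∈ X)).card : ℝ) - q * p := by
      have : q * p ≤ q * (e / 2) := mul_le_mul_of_nonneg_left hpe hq'.le
      nlinarith
    have h5 : 0 ≤ e * q / 4 := by positivity
    nlinarith
  have h4 := h2.trans h1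
  have h5 : 0 < e * q := by positivity
  have h6 : (q : ℝ) * p * (Fintype.card C : ℝ) ^ q ≤ e * q / 2 * (Fintype.card C : ℝ) ^ q := by
    refine mul_le_mul_of_nonneg_right ?_ (by positivity)
    nlinarith
  refine le_of_mul_le_mul_right ?_ h5
  nlinarith

end Pool.Agent.Helper43.BT
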