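import Pool.Agent.Helper43.BT.Color
import Pool.Agent.Helper43.BT.Sample

/-!
# Windows given by sampled counters contain few rarely read bits
-/

namespace Pool.Agent.Helper43.BT

open Finset

variable {C : Type} [DecidableEq C] {q : ℕ}

/-- The counters of the samples after the list `p`. -/
def adv (H : Fin q → C) (w : ℕ) (v : Fin q → ℕ) (p : List C) : Fin q → ℕ :=
  fun i => min (v i + p.count (H i)) (w + 1)

/-- The sum of the counters. -/
def kap (v : Fin q → ℕ) : ℕ := ∑ i, v i

/-- The number of the window of the position `t`. -/
def lvl (H : Fin q → C) (w : ℕ) (l : List C) (t : ℕ) : ℕ := kap (adv H w 0 (l.take t))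

/-- The cut point number `j`. -/
def cutp (H : Fin q → C) (w : ℕ) (l : List C) (j : ℕ) : ℕ :=
  ((range l.length).filter (fun t => lvl H w l t < j)).card

theorem lvl_mono (H : Fin q → C) (w : ℕ) (l : List C) {t t' : ℕ} (h : t ≤ t') : lvl H w l t ≤ lvl H w l t' := by
  unfold lvl kap adv
  refine sum_le_sum fun i _ => min_le_min ?_ le_rfl
  refine Nat.add_le_add_left ?_ _
  exact ((List.take_prefix_take_left h).sublist).count_le _

theorem lvl_le (H : Fin q → C) (w : ℕ) (l : List C) (t : ℕ) : lvl H w l t ≤ q * (w + 1) := by
  unfold lvl kap adv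
  calc ∑ i : Fin q, min ((0 : Fin q → ℕ) i + (l.take t).count (H i)) (w + 1) ≤ ∑ _i : Fin q, (w + 1) :=
        sum_le_sum fun i _ => min_le_right _ _
    _ = q * (w + 1) := by simp

/-- The positions before the cut point number `j` are those with a smaller number. -/
theorem lt_cutp (H : Fin q → C) (w : ℕ) (l : List C) {j t : ℕ} (ht : t < l.length) :
    t < cutp H w l j ↔ lvl H w l t < j := by
  unfold cutp
  constructor
  · intro h
    by_contra h1
    have h2 : (range l.length).filter (fun s => lvl H w l s < j) ⊆ range t := by
      intro s hs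
      rw [mem_filter] at hs
      rw [mem_range]
      by_contra h3
      exact h1 (lt_of_le_of_lt (lvl_mono H w l (not_lt.1 h3)) hs.2)
    have := card_le_card h2
    rw [card_range] at this
    omega
  · intro h
    have h2 : range (t + 1) ⊆ (range l.length).filter (fun s => lvl H w l s < j) := by
      intro s hs
      rw [mem_range] at hs
      rw [mem_filter, mem_range]
      exact ⟨by omega, lt_of_le_of_lt (lvl_mono H w l (by omega)) h⟩
    have := card_le_card h2
    rw [card_range] at this
    omega

theorem cutp_le (H : Fin q → C) (w : ℕ) (l : List C) (j : ℕ) : cutp H w l j ≤ l.length := by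
  unfold cutp
  refine (card_filter_le _ _).trans ?_
  rw [card_range]

theorem cutp_mono (H : Fin q → C) (w : ℕ) (l : List C) {j j' : ℕ} (h : j ≤ j') : cutp H w l j ≤ cutp H w l j' := by
  unfold cutp
  refine card_le_card fun t ht => ?_
  rw [mem_filter] at ht ⊢
  exact ⟨ht.1, lt_of_lt_of_le ht.2 h⟩

theorem cutp_zero (H : Fin q → C) (w : ℕ) (l : List C) : cutp H w l 0 = 0 := by
  unfold cutp
  simp

theorem cutp_last (H : Fin q → C) (w : ℕ) (l : List C) {j : ℕ} (hj : q * (w + 1) < j) :
    cutp H w l j = l.length := by
  unfold cutp
  rw [filter_true_of_mem fun t _ => lt_of_le_of_lt (lvl_le H w l t) hj, card_range]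

/-- A read of a sampled rarely read bit increases a counter. -/
theorem lvl_succ (H : Fin q → C) {w : ℕ} (l : List C) {t : ℕ} (ht : t < l.length) (hz : l.count l[t] ≤ w)
    {k : Fin q} (hk : H k = l[t]) : lvl H w l t < lvl H w l (t + 1) := by
  unfold lvl kap adv
  have h1 : l.take (t + 1) = l.take t ++ [l[t]] := (List.take_append_getElem ht).symm
  refine sum_lt_sum (fun i _ => min_le_min ?_ le_rfl) ⟨k, mem_univ _, ?_⟩
  · refine Nat.add_le_add_left ?_ _
    rw [h1, List.count_append]
    exact Nat.le_add_right _ _
  · rw [h1, List.count_append, hk, List.count_singleton_self]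
    have h2 : (l.take t).count l[t] + 1 ≤ l.count l[t] := by
      have h3 : (l.take (t + 1)).count l[t] ≤ l.count l[t] := (List.take_sublist _ _).count_le _
      rw [h1, List.count_append, List.count_singleton_self] at h3
      exact h3
    simp only [Pi.zero_apply, Nat.zero_add]
    rw [min_eq_left (by omega), min_eq_left (by omega)]
    omega

/-- The windows contain at most `D` elements of `X`. -/
theorem win_few {w D : ℕ} {H : Fin q → C} {l : List C} {X : Finset C} (hX : ∀ z ∈ X, l.count z ≤ w)
    (hH : ∀ s e, D ≤ (X ∩ ((l.drop s).take e).toFinset).card → ∃ k, H k ∈ X ∩ ((l.drop s).take e).toFinset) (j : ℕ) :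
    (X ∩ ((l.drop (cutp H w l j)).take (cutp H w l (j + 1) - cutp H w l j)).toFinset).card ≤ D := by
  set a := cutp H w l j with ha
  set b := cutp H w l (j + 1) with hb
  have hab : a ≤ b := cutp_mono H w l (Nat.le_succ j)
  have hbl : b ≤ l.length := cutp_le H w l _
  rcases Nat.eq_or_lt_of_le hab with h0 | h0
  · rw [← h0, Nat.sub_self, List.take_zero, List.toFinset_nil, inter_empty, card_empty]
    exact Nat.zero_le _
  · -- the window without its last element
    have e1 : (l.drop a).take (b - a) = (l.drop a).take (b - 1 - a) ++ [l[b - 1]'(by omega)] := by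
      have h1 : b - a = (b - 1 - a) + 1 := by omega
      have h2 : b - 1 - a < (l.drop a).length := by
        rw [List.length_drop]
        omega
      rw [h1, ← List.take_append_getElem h2, List.getElem_drop]
      congr 3
      omega
    have e2 : (X ∩ ((l.drop a).take (b - 1 - a)).toFinset).card < D := by
      by_contra h1
      obtain ⟨k, hk⟩ := hH a (b - 1 - a) (not_lt.1 h1)
      rw [mem_inter, List.mem_toFinset] at hk
      obtain ⟨i, hi, h2⟩ := List.mem_iff_getElem.1 hk.2
      rw [List.length_take, List.length_drop] at hi
      rw [List.getElem_take, List.getElem_drop] at h2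
      have h3 : a + i < l.length := by omega
      have h4 := lvl_succ H (w := w) l h3 (hX _ (by rw [h2]; exact hk.1)) h2.symm
      have h5 : ¬ lvl H w l (a + i) < j := by
        rw [← lt_cutp H w l h3, ← ha]
        omega
      have h6 : lvl H w l (a + i + 1) < j + 1 := by
        rw [← lt_cutp H w l (by omega), ← hb]
        omega
      omega
    have e3 : X ∩ ((l.drop a).take (b - a)).toFinset ⊆
        insert (l[b - 1]'(by omega)) (X ∩ ((l.drop a).take (b - 1 - a)).toFinset) := by
      intro z hz
      rw [mem_inter, List.mem_toFinset, e1, List.mem_append, List.mem_singleton] at hz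
      rw [mem_insert, mem_inter, List.mem_toFinset]
      rcases hz.2 with h1 | h1
      · exact Or.inr ⟨hz.1, h1⟩
      · exact Or.inl h1
    have e4 := (card_le_card e3).trans (card_insert_le _ _)
    omega

/-- A bit which is read at most `w` times is in at most `w` windows. -/
theorem card_windows_le {w J : ℕ} {H : Fin q → C} {l : List C} {z : C} (hz : l.count z ≤ w) :
    ((univ : Finset (Fin J)).filter (fun j : Fin J =>
      z ∈ (l.drop (cutp H w l j)).take (cutp H w l (j + 1) - cutp H w l j))).card ≤ w := by
  refine le_trans ?_ hz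
  have h0 : ((univ : Finset (Fin l.length)).filter (fun i : Fin l.length =>
      List.Vector.get (⟨l, rfl⟩ : List.Vector C l.length) i = z)).card = l.count z :=
    Fin.card_filter_univ_eq_vector_get_eq_count z ⟨l, rfl⟩
  rw [← h0]
  have h1 : (((univ : Finset (Fin J)).filter (fun j : Fin J =>
      z ∈ (l.drop (cutp H w l j)).take (cutp H w l (j + 1) - cutp H w l j))).image (fun j : Fin J => j.val)) ⊆
      (((univ : Finset (Fin l.length)).filter (fun i : Fin l.length =>
        List.Vector.get (⟨l, rfl⟩ : List.Vector C l.length) i = z)).image (fun t => lvl H w l t.val)) := by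
    intro j' hj'
    obtain ⟨j, hj, rfl⟩ := mem_image.1 hj'
    obtain ⟨i, hi, h2⟩ := List.mem_iff_getElem.1 (mem_filter.1 hj).2
    rw [List.length_take, List.length_drop] at hi
    rw [List.getElem_take, List.getElem_drop] at h2
    have hbl : cutp H w l (j + 1) ≤ l.length := cutp_le H w l _
    have h3 : cutp H w l j + i < l.length := by omega
    refine mem_image.2 ⟨⟨cutp H w l j + i, h3⟩, mem_filter.2 ⟨mem_univ _, h2⟩, ?_⟩
    have h5 : ¬ lvl H w l (cutp H w l j + i) < j := by
      rw [← lt_cutp H w l h3]
      omega
    have h6 : lvl H w l (cutp H w l j + i) < j + 1 := by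
      rw [← lt_cutp H w l h3]
      omega
    change lvl H w l (cutp H w l j + i) = j
    omega
  have h2 := card_le_card h1
  rw [card_image_of_injective _ Fin.val_injective] at h2
  exact h2.trans card_image_le

end Pool.Agent.Helper43.BT
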